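import Pool.Agent.H3.PK.Defs

/-!
# MP_7886dd_an: basic facts
-/

set_option autoImplicit false

open MeasureTheory Metric Set
open scoped ComplexConjugate

namespace Pool.Agent.H3.PK

lemma ev_add {n : ℕ} (p q : MvPolynomial (Fin n) ℂ) (z : E n) : ev (p + q) z = ev p z + ev q z := by
  simp [ev]

lemma ev_sub {n : ℕ} (p q : MvPolynomial (Fin n) ℂ) (z : E n) : ev (p - q) z = ev p z - ev q z := by
  simp [ev]

lemma ev_mul {n : ℕ} (p q : MvPolynomial (Fin n) ℂ) (z : E n) : ev (p * q) z = ev p z * ev q z := by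
  simp [ev]

lemma ev_C {n : ℕ} (c : ℂ) (z : E n) : ev (MvPolynomial.C c) z = c := by
  simp [ev]

lemma ev_X {n : ℕ} (i : Fin n) (z : E n) : ev (MvPolynomial.X i) z = z i := by
  simp [ev]

lemma ev_sum {n : ℕ} {ι : Type} (s : Finset ι) (v : ι → MvPolynomial (Fin n) ℂ) (z : E n) :
    ev (∑ i ∈ s, v i) z = ∑ i ∈ s, ev (v i) z := by
  simp [ev]

lemma ev_pow {n : ℕ} (p : MvPolynomial (Fin n) ℂ) (k : ℕ) (z : E n) : ev (p ^ k) z = ev p z ^ k := by
  simp [ev]

/-- the value as a sum over the monomials -/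
lemma ev_eq {n : ℕ} (p : MvPolynomial (Fin n) ℂ) (z : E n) :
    ev p z = ∑ m ∈ p.support, p.coeff m * ∏ i, (z i) ^ m i := by
  unfold ev
  rw [MvPolynomial.eval_eq']

lemma continuous_ev {n : ℕ} (p : MvPolynomial (Fin n) ℂ) : Continuous (ev p) := by
  unfold ev
  exact (MvPolynomial.continuous_eval p).comp (continuous_pi fun i => by fun_prop)

lemma continuous_evS {n : ℕ} (p : MvPolynomial (Fin n) ℂ) : Continuous fun z : S n => ev p z :=
  (continuous_ev p).comp continuous_subtype_val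

lemma continuous_ev2 {n : ℕ} (P : MvPolynomial (Fin n ⊕ Fin n) ℂ) : Continuous (ev2 P) := by
  unfold ev2
  refine (MvPolynomial.continuous_eval P).comp (continuous_pi fun i => ?_)
  rcases i with i | i
  · simpa using (by fun_prop : Continuous fun z : E n => z i)
  · exact Complex.continuous_conj.comp (by fun_prop : Continuous fun z : E n => z i)

lemma continuous_ev2S {n : ℕ} (P : MvPolynomial (Fin n ⊕ Fin n) ℂ) :
    Continuous fun z : S n => ev2 P z :=
  (continuous_ev2 P).comp continuous_subtype_val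

/-- continuous functions on the sphere are integrable -/
lemma integrable_cont {n : ℕ} (σ : Measure (S n)) [IsFiniteMeasure σ] {F : Type*}
    [NormedAddCommGroup F] [SecondCountableTopology F] {g : S n → F} (hg : Continuous g) :
    Integrable g σ :=
  hg.integrable_of_hasCompactSupport (HasCompactSupport.of_compactSpace g)

/-- homogeneity of the values -/
lemma ev_smul {n N : ℕ} {p : MvPolynomial (Fin n) ℂ} (hp : p.IsHomogeneous N) (c : ℂ) (z : E n) :
    ev p (c • z) = c ^ N * ev p z := by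
  rw [ev_eq, ev_eq, Finset.mul_sum]
  refine Finset.sum_congr rfl fun m hm => ?_
  have h1 : ∑ i, m i = N := by
    have h := hp (MvPolynomial.mem_support_iff.1 hm)
    rw [← h, Finsupp.weight_apply, Finsupp.sum_fintype _ _ (by simp)]
    simp
  simp only [PiLp.smul_apply, smul_eq_mul, mul_pow]
  rw [Finset.prod_mul_distrib, Finset.prod_pow_eq_pow_sum, h1]
  ring

lemma norm_coord_le {n : ℕ} (z : S n) (i : Fin n) : ‖(z : E n) i‖ ≤ 1 := by
  have h := z.2
  rw [mem_sphere_zero_iff_norm] at h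
  rw [← h]
  exact PiLp.norm_apply_le _ i

lemma sum_norm_sq {n : ℕ} (z : S n) : ∑ i, ‖(z : E n) i‖ ^ 2 = 1 := by
  have h := z.2
  rw [mem_sphere_zero_iff_norm] at h
  rw [← EuclideanSpace.norm_sq_eq, h, one_pow]

/-- homogeneous polynomials bounded by `1` on the sphere grow at most like `‖z‖ ^ N` -/
lemma Ball1.le {n N : ℕ} (hN : 1 ≤ N) {p : MvPolynomial (Fin n) ℂ} (hp : Ball1 N p) (z : E n) :
    ‖ev p z‖ ≤ ‖z‖ ^ N := by
  rcases eq_or_ne z 0 with h | h
  · subst h
    have h3 := ev_smul hp.1 0 (0 : E n)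
    rw [zero_smul, zero_pow (by omega), zero_mul] at h3
    rw [h3]
    simp
  · have hz : ‖z‖ ≠ 0 := norm_ne_zero_iff.2 h
    have h1 : ‖((‖z‖⁻¹ : ℝ) : ℂ) • z‖ = 1 := by
      rw [norm_smul]
      simp [hz]
    have h2 := hp.2 ⟨((‖z‖⁻¹ : ℝ) : ℂ) • z, mem_sphere_zero_iff_norm.2 h1⟩
    have h3 := ev_smul hp.1 ((‖z‖⁻¹ : ℝ) : ℂ) z
    simp only at h2
    rw [h3, norm_mul, norm_pow] at h2
    simp only [Complex.norm_real, norm_inv, norm_norm, inv_pow] at h2
    have h4 : 0 < ‖z‖ ^ N := by positivity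
    rwa [inv_mul_le_iff₀ h4, mul_one] at h2

lemma sum_al {n N : ℕ} {x : Fin n × (Fin n → ℕ)} (hx : x ∈ LL n N) : ∑ i, al N x i = N := by
  classical
  obtain ⟨j, k⟩ := x
  simp only [LL, Finset.mem_filter] at hx
  obtain ⟨-, h0, h1⟩ := hx
  rw [← Finset.add_sum_erase _ _ (Finset.mem_univ j)]
  have h2 : ∑ i ∈ Finset.univ.erase j, al N (j, k) i = ∑ i, k i ^ 2 := by
    rw [← Finset.add_sum_erase (Finset.univ) (fun i => k i ^ 2) (Finset.mem_univ j)]
    simp only [h0]
    rw [zero_pow two_ne_zero, zero_add]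
    refine Finset.sum_congr rfl fun i hi => ?_
    simp [al, Finset.ne_of_mem_erase hi]
  rw [h2]
  simp only [al, if_true]
  omega

/-! ## The action of the unitary group -/

lemma continuous_act {n : ℕ} (U : E n ≃ₗᵢ[ℂ] E n) : Continuous (act U) :=
  Continuous.subtype_mk (U.continuous.comp continuous_subtype_val) _

lemma Inv.integral {n : ℕ} {σ : Measure (S n)} (h : Inv σ) (U : E n ≃ₗᵢ[ℂ] E n) {F : Type*}
    [NormedAddCommGroup F] [NormedSpace ℝ F] (g : S n → F) :
    ∫ z, g (act U z) ∂σ = ∫ z, g z ∂σ := by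
  have h1 : MeasurableEmbedding (act U) := by
    refine (Continuous.isClosedEmbedding (continuous_act U) ?_).measurableEmbedding
    intro z w hzw
    have h2 : U z = U w := congrArg Subtype.val hzw
    exact Subtype.ext (U.injective h2)
  conv_rhs => rw [← h.inv U]
  rw [h1.integral_map]

/-- multiplication by a unimodular number -/
noncomputable def rot (n : ℕ) (c : ℂ) (hc : ‖c‖ = 1) : E n ≃ₗᵢ[ℂ] E n where
  toLinearEquiv := LinearEquiv.smulOfNeZero ℂ (E n) c (by rintro rfl; simp at hc)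
  norm_map' z := by
    show ‖c • z‖ = ‖z‖
    rw [norm_smul, hc, one_mul]

lemma rot_apply {n : ℕ} (c : ℂ) (hc : ‖c‖ = 1) (z : E n) : rot n c hc z = c • z := rfl

lemma act_coe {n : ℕ} (U : E n ≃ₗᵢ[ℂ] E n) (z : S n) : (act U z : E n) = U z := rfl

/-- multiplication of the coordinates by unimodular numbers -/
noncomputable def dia {n : ℕ} (c : Fin n → ℂ) (hc : ∀ i, ‖c i‖ = 1) : E n ≃ₗᵢ[ℂ] E n where
  toFun z := WithLp.toLp 2 fun i => c i * z i
  invFun z := WithLp.toLp 2 fun i => (c i)⁻¹ * z i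
  map_add' z w := by ext i; simp [mul_add]
  map_smul' a z := by ext i; simp; ring
  left_inv z := by
    ext i
    have h : c i ≠ 0 := by intro h; have := hc i; rw [h] at this; simp at this
    simp [h]
  right_inv z := by
    ext i
    have h : c i ≠ 0 := by intro h; have := hc i; rw [h] at this; simp at this
    simp [h]
  norm_map' z := by
    rw [EuclideanSpace.norm_eq, EuclideanSpace.norm_eq]
    congr 1
    refine Finset.sum_congr rfl fun i _ => ?_
    show ‖c i * z i‖ ^ 2 = ‖z i‖ ^ 2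
    rw [norm_mul, hc, one_mul]

lemma dia_apply {n : ℕ} (c : Fin n → ℂ) (hc : ∀ i, ‖c i‖ = 1) (z : E n) (i : Fin n) :
    dia c hc z i = c i * z i := rfl

end Pool.Agent.H3.PK
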