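import Pool.Agent.H3.PK.Targets

/-!
# MP_7886dd_an: the construction of the compact set
-/

set_option autoImplicit false

open MeasureTheory Metric Set
open scoped ComplexConjugate

namespace Pool.Agent.H3.PK

lemma nm_le_add {n : ℕ} (σ : Measure (S n)) [IsFiniteMeasure σ] {A B C : Set (S n)}
    (h : A ⊆ B ∪ C) (F : MvPolynomial (Fin n) ℂ) : nm σ A F ≤ nm σ B F + nm σ C F := by
  have hc : Continuous fun z : S n => |(ev F z).re| :=
    (Complex.continuous_re.comp (continuous_evS F)).abs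
  have h1 : Integrable (fun z : S n => |(ev F z).re|) σ := integrable_cont σ hc
  unfold nm
  rw [← integral_add_measure (h1.mono_measure Measure.restrict_le_self)
    (h1.mono_measure Measure.restrict_le_self)]
  refine integral_mono_measure ((Measure.restrict_mono h le_rfl).trans
    (Measure.restrict_union_le _ _)) (Filter.Eventually.of_forall fun z => abs_nonneg _) ?_
  exact (h1.mono_measure Measure.restrict_le_self).add_measure
    (h1.mono_measure Measure.restrict_le_self)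

lemma nm_mono {n : ℕ} (σ : Measure (S n)) [IsFiniteMeasure σ] {A B : Set (S n)}
    (h : A ⊆ B) (F : MvPolynomial (Fin n) ℂ) : nm σ A F ≤ nm σ B F := by
  have hc : Continuous fun z : S n => |(ev F z).re| :=
    (Complex.continuous_re.comp (continuous_evS F)).abs
  have h1 : Integrable (fun z : S n => |(ev F z).re|) σ := integrable_cont σ hc
  unfold nm
  exact integral_mono_measure (Measure.restrict_mono h le_rfl)
    (Filter.Eventually.of_forall fun z => abs_nonneg _)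
    (h1.mono_measure Measure.restrict_le_self)

lemma nm_le_of_bound {n : ℕ} (σ : Measure (S n)) [IsProbabilityMeasure σ] {A : Set (S n)}
    {F : MvPolynomial (Fin n) ℂ} {b : ℝ} (hb : 0 ≤ b)
    (h : ∀ z ∈ A, ‖ev F z‖ ≤ b) : nm σ A F ≤ b := by
  unfold nm
  have h1 : ‖∫ z in A, |(ev F z).re| ∂σ‖ ≤ b * σ.real A := by
    refine norm_setIntegral_le_of_norm_le_const (measure_lt_top σ A) fun z hz => ?_
    rw [Real.norm_eq_abs, abs_abs]
    exact (Complex.abs_re_le_norm _).trans (h z hz)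
  refine (le_abs_self _).trans (h1.trans ?_)
  exact mul_le_of_le_one_right hb measureReal_le_one

/-- a stage of the construction -/
structure St (n : ℕ) where
  /-- the closed set -/
  A : Set (S n)
  /-- the width of the channel -/
  δ : ℝ
  /-- the polynomials -/
  F : ℕ → MvPolynomial (Fin n) ℂ

/-- the invariants of a stage -/
def St.Ok {n : ℕ} (i₀ : Fin n) (s : St n) : Prop :=
  IsClosed s.A ∧ 0 < s.δ ∧ chan i₀ s.δ ⊆ s.A

/-- the relation of two consecutive stages -/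
def St.Next {n : ℕ} (σ : Measure (S n)) (i : ℕ) (s t : St n) : Prop :=
  t.A ⊆ s.A ∧ σ.real t.A ≤ (1 / 2) ^ (i + 1) ∧
  (∀ j ≤ i, MvPolynomial.constantCoeff (t.F j) = MvPolynomial.constantCoeff (s.F j) ∧
    nm σ univ (t.F j) ≤ nm σ univ (s.F j) + 3 / 16 * (1 / 4) ^ i ∧
    nm σ t.Aᶜ (t.F j) ≤ nm σ s.Aᶜ (s.F j) + 2 * (3 / 16 * (1 / 4) ^ i)) ∧
  MvPolynomial.constantCoeff (t.F (i + 1)) = 1 ∧
  nm σ t.Aᶜ (t.F (i + 1)) ≤ (1 / 2) ^ (i + 1)

lemma chan_mono {n : ℕ} (i₀ : Fin n) {δ δ' : ℝ} (h : δ ≤ δ') : chan i₀ δ ⊆ chan i₀ δ' := by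
  rintro z ⟨t, h0, h1, h2⟩
  exact ⟨t, h0, h1, h2.trans h⟩

lemma ev_aeval {n : ℕ} (i₀ : Fin n) (f : Polynomial ℂ) (z : E n) :
    ev (Polynomial.aeval (MvPolynomial.X i₀) f) z = f.eval (z i₀) := by
  unfold ev
  rw [Polynomial.aeval_def, Polynomial.hom_eval₂, ← Polynomial.eval₂_id]
  congr 1
  · ext x; simp
  · simp

lemma constantCoeff_aeval {n : ℕ} (i₀ : Fin n) (f : Polynomial ℂ) :
    MvPolynomial.constantCoeff
      (Polynomial.aeval (MvPolynomial.X i₀ : MvPolynomial (Fin n) ℂ) f) = f.eval 0 := by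
  rw [Polynomial.aeval_def, Polynomial.hom_eval₂, ← Polynomial.eval₂_id]
  congr 1
  · ext x; simp
  · simp

/-- one stage -/
lemma step (h1 : T_IT) (h2 : T_RU) {n : ℕ} {σ : Measure (S n)} (hσ : Inv σ) (i₀ : Fin n)
    (hcl : ∀ δ : ℝ, IsClosed (chan (n := n) i₀ δ))
    (hδ : ∀ ε : ℝ, 0 < ε → ∃ δ₀ : ℝ, 0 < δ₀ ∧ ∀ δ : ℝ, δ ≤ δ₀ → σ.real (chan i₀ δ) ≤ ε)
    (i : ℕ) (s : St n) (hs : s.Ok i₀) : ∃ t : St n, t.Ok i₀ ∧ s.Next σ i t := by
  have := hσ.prob
  have he : (0 : ℝ) < 3 / 16 * (1 / 4) ^ i := by positivity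
  obtain ⟨hA, hd, hc⟩ := hs
  obtain ⟨G, hG1, hG2, hG3, hG4, hG5⟩ := h1 n i₀.pos σ hσ (i + 1) (fun j => s.F j) s.Aᶜ
    hA.measurableSet.compl _ he
  obtain ⟨δ₀, hδ₀, hδ₁⟩ := hδ _ he
  set E : Set (S n) := {z | ∃ j, 1 ≤ |(ev (G j) z).re|} with hE
  have hEc : IsClosed E := by
    rw [hE, ofPred_exists]
    refine isClosed_iUnion_of_finite fun j => ?_
    exact isClosed_le continuous_const (Complex.continuous_re.comp (continuous_evS _)).abs
  set δ' := min δ₀ s.δ with hδ'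
  have hδ'0 : 0 < δ' := lt_min hδ₀ hd
  obtain ⟨f, hf0, hf1⟩ := h2 δ' ((1 / 2) ^ (i + 1)) hδ'0 (by positivity)
  refine ⟨⟨(E ∩ s.A) ∪ chan i₀ δ', δ', fun j => if h : j < i + 1 then G ⟨j, h⟩ else
    Polynomial.aeval (MvPolynomial.X i₀) f⟩, ⟨(hEc.inter hA).union (hcl _), hδ'0,
    subset_union_right⟩, ?_, ?_, ?_, ?_, ?_⟩
  · refine union_subset inter_subset_right ((chan_mono i₀ (min_le_right _ _)).trans hc)
  · show σ.real ((E ∩ s.A) ∪ chan i₀ δ') ≤ (1 / 2) ^ (i + 1)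
    have h3 : σ.real ((E ∩ s.A) ∪ chan i₀ δ') ≤ 3 / 16 * (1 / 4) ^ i + 3 / 16 * (1 / 4) ^ i := by
      refine (measureReal_union_le _ _).trans (add_le_add ?_ (hδ₁ _ (min_le_left _ _)))
      exact (measureReal_mono inter_subset_left).trans hG4
    refine h3.trans ?_
    have h4 : ((1 : ℝ) / 4) ^ i ≤ (1 / 2) ^ i := by gcongr; norm_num
    rw [pow_succ]
    have h5 : (0 : ℝ) < (1 / 2) ^ i := by positivity
    linarith
  · intro j hj
    have hj' : j < i + 1 := by omega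
    show MvPolynomial.constantCoeff (if h : j < i + 1 then G ⟨j, h⟩ else
        Polynomial.aeval (MvPolynomial.X i₀) f) = _ ∧
      nm σ univ (if h : j < i + 1 then G ⟨j, h⟩ else
        Polynomial.aeval (MvPolynomial.X i₀) f) ≤ _ ∧
      nm σ ((E ∩ s.A) ∪ chan i₀ δ')ᶜ (if h : j < i + 1 then G ⟨j, h⟩ else
        Polynomial.aeval (MvPolynomial.X i₀) f) ≤ _
    rw [dif_pos hj']
    refine ⟨hG1 ⟨j, hj'⟩, hG2 ⟨j, hj'⟩, ?_⟩
    have h3 : ((E ∩ s.A) ∪ chan i₀ δ')ᶜ ⊆ Eᶜ ∪ s.Aᶜ := by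
      rw [← compl_inter]
      exact compl_subset_compl.2 subset_union_left
    refine (nm_le_add σ h3 _).trans ?_
    have h4 := hG3 ⟨j, hj'⟩
    have h5 := hG5 ⟨j, hj'⟩
    simp only at h4
    linarith
  · show MvPolynomial.constantCoeff (if h : i + 1 < i + 1 then G ⟨i + 1, h⟩ else
        Polynomial.aeval (MvPolynomial.X i₀) f) = 1
    rw [dif_neg (lt_irrefl _), constantCoeff_aeval, hf0]
  · show nm σ ((E ∩ s.A) ∪ chan i₀ δ')ᶜ (if h : i + 1 < i + 1 then G ⟨i + 1, h⟩ else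
        Polynomial.aeval (MvPolynomial.X i₀) f) ≤ (1 / 2) ^ (i + 1)
    rw [dif_neg (lt_irrefl _)]
    refine nm_le_of_bound σ (by positivity) fun z hz => ?_
    rw [ev_aeval]
    refine hf1 _ (norm_coord_le z i₀) fun t h0 h1 => ?_
    by_contra hcon
    exact hz (Or.inr ⟨t, h0, h1, (not_le.1 hcon).le⟩)

theorem con (h1 : T_IT) (h2 : T_RU) (h3 : T_CHN) : T_CON := by
  intro n σ hσ i₀ hnull
  have := hσ.prob
  obtain ⟨hcl, hδ⟩ := h3 n σ inferInstance i₀ hnull
  have hstep := step h1 h2 hσ i₀ hcl hδ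
  choose! f hf1 hf2 using hstep
  let s0 : St n := ⟨univ, 1, fun _ => 1⟩
  let s : ℕ → St n := fun i => Nat.rec s0 (fun i t => f i t) i
  have hs0 : s 0 = s0 := rfl
  have hsS : ∀ i, s (i + 1) = f i (s i) := fun i => rfl
  have hok : ∀ i, (s i).Ok i₀ := by
    intro i
    induction i with
    | zero => exact ⟨isClosed_univ, one_pos, subset_univ _⟩
    | succ i ih => rw [hsS]; exact hf1 i _ ih
  have hnx : ∀ i, (s i).Next σ i (s (i + 1)) := fun i => by
    rw [hsS]; exact hf2 i _ (hok i)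
  have hdiag : ∀ j, MvPolynomial.constantCoeff ((s j).F j) = 1 ∧
      nm σ (s j).Aᶜ ((s j).F j) ≤ (1 / 2) ^ j := by
    intro j
    cases j with
    | zero =>
      refine ⟨map_one _, ?_⟩
      show nm σ (univ)ᶜ (1 : MvPolynomial (Fin n) ℂ) ≤ (1 / 2) ^ 0
      rw [compl_univ]
      simp [nm]
    | succ j => exact ⟨(hnx j).2.2.2.1, (hnx j).2.2.2.2⟩
  refine ⟨fun i => (s i).A, fun j => nm σ univ ((s j).F j) + 1, fun i => (hok i).1,
    antitone_nat_of_succ_le fun i => (hnx i).1, ?_, ?_⟩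
  · intro i
    cases i with
    | zero =>
      show σ.real (s 0).A ≤ (1 / 2) ^ 0
      rw [pow_zero]
      exact measureReal_le_one
    | succ i => exact (hnx i).2.1
  · intro i j hij
    have key : MvPolynomial.constantCoeff ((s i).F j) = 1 ∧
        nm σ univ ((s i).F j) ≤ nm σ univ ((s j).F j) + ((1 / 4) ^ j / 4 - (1 / 4) ^ i / 4) ∧
        nm σ (s i).Aᶜ ((s i).F j) ≤ (1 / 2) ^ j + 2 * ((1 / 4) ^ j / 4 - (1 / 4) ^ i / 4) := by
      induction i, hij using Nat.le_induction with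
      | base =>
        refine ⟨(hdiag j).1, by simp, ?_⟩
        rw [sub_self, mul_zero, add_zero]
        exact (hdiag j).2
      | succ i hij ih =>
        obtain ⟨h4, h5, h6⟩ := (hnx i).2.2.1 j hij
        refine ⟨h4.trans ih.1, ?_, ?_⟩
        · refine h5.trans ?_
          have := ih.2.1
          rw [pow_succ]
          linarith
        · refine h6.trans ?_
          have := ih.2.2
          rw [pow_succ]
          linarith
    have p4 : (0 : ℝ) < (1 / 4) ^ i := by positivity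
    have p5 : ((1 : ℝ) / 4) ^ j ≤ (1 / 2) ^ j := by gcongr; norm_num
    have p6 : ((1 : ℝ) / 2) ^ j ≤ 1 := pow_le_one₀ (by norm_num) (by norm_num)
    have p7 : (0 : ℝ) < (1 / 2) ^ j := by positivity
    refine ⟨(s i).F j, key.1, ?_, ?_⟩
    · refine key.2.1.trans ?_
      linarith
    · refine key.2.2.trans ?_
      linarith

end Pool.Agent.H3.PK
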