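import Mathlib

/-!
# MP_7886dd_an: peak functions in the span of the mixed-bidegree spherical harmonics. Definitions
-/

set_option autoImplicit false

open MeasureTheory Metric Set
open scoped ComplexConjugate

namespace Pool.Agent.H3.PK

/-- the space `ℂ^n` -/
abbrev E (n : ℕ) := EuclideanSpace ℂ (Fin n)

/-- the unit sphere of `ℂ^n` -/
abbrev S (n : ℕ) := sphere (0 : E n) 1

/-- the polynomial `P` in the variables `z` (`Sum.inl`) and `z̄` (`Sum.inr`) is homogeneous of degree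
`a` in `z` and of degree `b` in `z̄` -/
def BiHom {n : ℕ} (P : MvPolynomial (Fin n ⊕ Fin n) ℂ) (a b : ℕ) : Prop :=
  ∀ m ∈ P.support, ∑ i, m (Sum.inl i) = a ∧ ∑ i, m (Sum.inr i) = b

/-- the polynomial `P` in `z` and `z̄` is harmonic: the Laplacian is `4 ∑ ∂²/∂z_i ∂z̄_i` -/
def Harm {n : ℕ} (P : MvPolynomial (Fin n ⊕ Fin n) ℂ) : Prop :=
  ∑ i, MvPolynomial.pderiv (Sum.inl i) (MvPolynomial.pderiv (Sum.inr i) P) = 0

/-- the value at `z` of a polynomial in `z` and `z̄` -/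
noncomputable def ev2 {n : ℕ} (P : MvPolynomial (Fin n ⊕ Fin n) ℂ) (z : E n) : ℂ :=
  MvPolynomial.eval (Sum.elim (fun i => z i) fun i => conj (z i)) P

/-- the space `H(a, b)`: restrictions to the sphere of the harmonic polynomials which are homogeneous
of degree `a` in `z` and of degree `b` in `z̄` -/
def HH (n a b : ℕ) : Set C(S n, ℂ) :=
  {f | ∃ P : MvPolynomial (Fin n ⊕ Fin n) ℂ, BiHom P a b ∧ Harm P ∧ ∀ z : S n, f z = ev2 P z}

/-- the space `X`: the closure in `C(S)` of the linear span of all `H(a, b)` with `a ≥ 1`, `b ≥ 1` -/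
def XX (n : ℕ) : Set C(S n, ℂ) :=
  closure (Submodule.span ℂ {f | ∃ a b : ℕ, 1 ≤ a ∧ 1 ≤ b ∧ f ∈ HH n a b} : Set C(S n, ℂ))

/-- `f` peaks on `K` -/
def Peaks {n : ℕ} (f : C(S n, ℂ)) (K : Set (S n)) : Prop :=
  (∀ z ∈ K, f z = 1) ∧ ∀ z, z ∉ K → ‖f z‖ < 1

/-- the rotation-invariant probability measure on the sphere: the normalised surface measure -/
noncomputable def sig (n : ℕ) : Measure (S n) :=
  ((volume : Measure (E n)).toSphere univ)⁻¹ • (volume : Measure (E n)).toSphere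

/-! ## Notions of the proof -/

/-- the value of a holomorphic polynomial -/
noncomputable def ev {n : ℕ} (p : MvPolynomial (Fin n) ℂ) (z : E n) : ℂ :=
  MvPolynomial.eval (fun i => z i) p

/-- the map of the sphere induced by a linear isometry -/
noncomputable def act {n : ℕ} (U : E n ≃ₗᵢ[ℂ] E n) (z : S n) : S n :=
  ⟨U z, by
    have h := z.2
    rw [mem_sphere_zero_iff_norm] at h ⊢
    rw [U.norm_map, h]⟩

/-- a probability measure which is invariant under the unitary group -/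
structure Inv {n : ℕ} (σ : Measure (S n)) : Prop where
  prob : IsProbabilityMeasure σ
  inv : ∀ U : E n ≃ₗᵢ[ℂ] E n, σ.map (act U) = σ

/-- homogeneous polynomials of degree `N`, bounded by `1` on the sphere -/
def Ball1 {n : ℕ} (N : ℕ) (p : MvPolynomial (Fin n) ℂ) : Prop :=
  p.IsHomogeneous N ∧ ∀ z : S n, ‖ev p z‖ ≤ 1

/-- the normalised monomial with exponent `α` -/
noncomputable def bb {n : ℕ} (N : ℕ) (α : Fin n → ℕ) : MvPolynomial (Fin n) ℂ :=
  MvPolynomial.C ((∏ i, ((N : ℝ) / α i) ^ ((α i : ℝ) / 2) : ℝ) : ℂ) * ∏ i, MvPolynomial.X i ^ α i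

/-- its absolute value -/
noncomputable def wt {n : ℕ} (N : ℕ) (α : Fin n → ℕ) (z : E n) : ℝ :=
  ∏ i, ((N : ℝ) * ‖z i‖ ^ 2 / α i) ^ ((α i : ℝ) / 2)

/-- the exponents: all coordinates except the `j`-th one are squares -/
def al {n : ℕ} (N : ℕ) (x : Fin n × (Fin n → ℕ)) : Fin n → ℕ :=
  fun i => if i = x.1 then N - ∑ l, x.2 l ^ 2 else x.2 i ^ 2

/-- the index set of the exponents -/
def LL (n N : ℕ) : Finset (Fin n × (Fin n → ℕ)) :=
  (Finset.univ ×ˢ Fintype.piFinset fun _ => Finset.range (N + 1)).filter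
    fun x => x.2 x.1 = 0 ∧ ∑ l, x.2 l ^ 2 ≤ N

/-- `∫ |Re F|` over `A` -/
noncomputable def nm {n : ℕ} (σ : Measure (S n)) (A : Set (S n)) (F : MvPolynomial (Fin n) ℂ) : ℝ :=
  ∫ z in A, |(ev F z).re| ∂σ

/-- `∫ √|Re F|` -/
noncomputable def hf {n : ℕ} (σ : Measure (S n)) (F : MvPolynomial (Fin n) ℂ) : ℝ :=
  ∫ z, √|(ev F z).re| ∂σ

/-- the channel: the coordinate `i₀` is close to the segment `[0, 1]` -/
def chan {n : ℕ} (i₀ : Fin n) (δ : ℝ) : Set (S n) :=
  {z | ∃ t : ℝ, 0 ≤ t ∧ t ≤ 1 ∧ ‖(z : E n) i₀ - t‖ ≤ δ}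

end Pool.Agent.H3.PK
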