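import Pool.Agent.H3.PK.Constr

/-!
# MP_7886dd_an: the final argument
-/

set_option autoImplicit false

open MeasureTheory Metric Set
open scoped ComplexConjugate

namespace Pool.Agent.H3.PK

theorem fin (h1 : T_SIG) (h2 : T_NUL) (h3 : T_CON) (h4 : T_MV) (h5 : T_XRT) : T_FIN := by
  intro n hn
  let i₀ : Fin n := ⟨0, hn⟩
  have hσ := h1 n hn
  have hp := hσ.prob
  obtain ⟨A, M, hA1, hA2, hA3, hA4⟩ := h3 n (sig n) hσ i₀ (h2 n i₀)
  refine ⟨⋂ i, A i, (isClosed_iInter hA1).isCompact, ?_, ?_⟩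
  · have h6 : (sig n).real (⋂ i, A i) ≤ 0 := by
      refine ge_of_tendsto' (tendsto_pow_atTop_nhds_zero_of_lt_one (r := (1 / 2 : ℝ))
        (by norm_num) (by norm_num)) fun i => ?_
      exact (measureReal_mono (iInter_subset _ i)).trans (hA3 i)
    have h7 : (sig n).real (⋂ i, A i) = 0 := le_antisymm h6 measureReal_nonneg
    rwa [measureReal_eq_zero_iff] at h7
  · intro f hf hK
    -- compactness
    have hcomp : ∀ η : ℝ, 0 < η → ∃ i₁, ∀ z ∈ A i₁, ‖1 - f z‖ < η := by
      intro η hη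
      by_contra hcon
      push Not at hcon
      have hcl : ∀ i, IsClosed (A i ∩ {z | η ≤ ‖1 - f z‖}) := fun i =>
        (hA1 i).inter (isClosed_le continuous_const (by fun_prop))
      obtain ⟨z, hz⟩ := IsCompact.nonempty_iInter_of_sequence_nonempty_isCompact_isClosed
        (fun i => A i ∩ {z | η ≤ ‖1 - f z‖})
        (fun i => inter_subset_inter_left _ (hA2 (Nat.le_succ i)))
        (fun i => by
          obtain ⟨z, hz1, hz2⟩ := hcon i
          exact ⟨z, hz1, hz2⟩) (hcl 0).isCompact hcl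
      rw [mem_iInter] at hz
      have h8 := hK z (mem_iInter.2 fun i => (hz i).1)
      have h9 : η ≤ ‖1 - f z‖ := (hz 0).2
      rw [h8, sub_self, norm_zero] at h9
      linarith
    obtain ⟨j, hj⟩ : ∃ j : ℕ, ((1 : ℝ) / 2) ^ j < 1 / (8 * (1 + ‖f‖)) :=
      exists_pow_lt_of_lt_one (by positivity) (by norm_num)
    have hη : (0 : ℝ) < 1 / (4 * (|M j| + 1)) := by positivity
    obtain ⟨i₁, hi₁⟩ := hcomp _ hη
    obtain ⟨F, hF1, hF2, hF3⟩ := hA4 (max i₁ j) j (le_max_right _ _)
    set i := max i₁ j with hi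
    have hcR : Continuous fun z : S n => (ev F z).re :=
      Complex.continuous_re.comp (continuous_evS F)
    have hcC : Continuous fun z : S n => (((ev F z).re : ℝ) : ℂ) :=
      Complex.continuous_ofReal.comp hcR
    have hcf : Continuous fun z : S n => f z * (((ev F z).re : ℝ) : ℂ) := f.continuous.mul hcC
    have e1 : ∫ z : S n, (((ev F z).re : ℝ) : ℂ) ∂(sig n) = 1 := by
      rw [integral_complex_ofReal]
      have h8 := h4 n (sig n) hσ F
      rw [hF1] at h8
      have h9 : ∫ z : S n, (ev F z).re ∂(sig n) = (∫ z : S n, ev F z ∂(sig n)).re := by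
        have := integral_re (𝕜 := ℂ) (integrable_cont (sig n) (continuous_evS F))
        exact this
      rw [h9, h8]
      simp
    have e2 := h5 n (sig n) hσ f hf F
    have e3 : ∫ z : S n, (1 - f z) * (((ev F z).re : ℝ) : ℂ) ∂(sig n) = 1 := by
      have h8 : ∀ z : S n, (1 - f z) * (((ev F z).re : ℝ) : ℂ) =
          (((ev F z).re : ℝ) : ℂ) - f z * (((ev F z).re : ℝ) : ℂ) := fun z => by ring
      simp_rw [h8]
      rw [integral_sub (integrable_cont _ hcC) (integrable_cont _ hcf), e1, e2, sub_zero]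
    have hci : Continuous fun z : S n => ‖(1 - f z) * (((ev F z).re : ℝ) : ℂ)‖ :=
      ((continuous_const.sub f.continuous).mul hcC).norm
    have hcA : Continuous fun z : S n => |(ev F z).re| := hcR.abs
    have hn1 : ∀ z : S n, ‖(1 - f z) * (((ev F z).re : ℝ) : ℂ)‖ = ‖1 - f z‖ * |(ev F z).re| := by
      intro z
      rw [norm_mul, Complex.norm_real, Real.norm_eq_abs]
    have e4 : (1 : ℝ) ≤ ∫ z : S n, ‖(1 - f z) * (((ev F z).re : ℝ) : ℂ)‖ ∂(sig n) := by
      have h8 := norm_integral_le_integral_norm (μ := sig n)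
        (fun z : S n => (1 - f z) * (((ev F z).re : ℝ) : ℂ))
      rw [e3, norm_one] at h8
      exact h8
    rw [← integral_add_compl (hA1 i).measurableSet (integrable_cont _ hci)] at e4
    have e5 : ∫ z in A i, ‖(1 - f z) * (((ev F z).re : ℝ) : ℂ)‖ ∂(sig n) ≤
        1 / (4 * (|M j| + 1)) * nm (sig n) (A i) F := by
      unfold nm
      rw [← integral_const_mul]
      refine setIntegral_mono_on (integrable_cont _ hci).integrableOn
        ((integrable_cont _ hcA).const_mul _).integrableOn (hA1 i).measurableSet fun z hz => ?_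
      rw [hn1]
      exact mul_le_mul_of_nonneg_right (hi₁ z (hA2 (le_max_left _ _) hz)).le (abs_nonneg _)
    have e6 : ∫ z in (A i)ᶜ, ‖(1 - f z) * (((ev F z).re : ℝ) : ℂ)‖ ∂(sig n) ≤
        (1 + ‖f‖) * nm (sig n) (A i)ᶜ F := by
      unfold nm
      rw [← integral_const_mul]
      refine setIntegral_mono_on (integrable_cont _ hci).integrableOn
        ((integrable_cont _ hcA).const_mul _).integrableOn (hA1 i).measurableSet.compl
        fun z hz => ?_
      rw [hn1]
      refine mul_le_mul_of_nonneg_right ?_ (abs_nonneg _)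
      refine (norm_sub_le _ _).trans ?_
      rw [norm_one]
      exact add_le_add le_rfl (f.norm_coe_le_norm z)
    have e7 : nm (sig n) (A i) F ≤ |M j| + 1 :=
      ((nm_mono _ (subset_univ _) F).trans hF2).trans ((le_abs_self _).trans (by linarith))
    have e8 : 1 / (4 * (|M j| + 1)) * nm (sig n) (A i) F ≤ 1 / 4 := by
      have hM : (0 : ℝ) < |M j| + 1 := by positivity
      calc 1 / (4 * (|M j| + 1)) * nm (sig n) (A i) F
          ≤ 1 / (4 * (|M j| + 1)) * (|M j| + 1) := mul_le_mul_of_nonneg_left e7 hη.le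
        _ = 1 / 4 := by field_simp
    have e9 : (1 + ‖f‖) * nm (sig n) (A i)ᶜ F ≤ 1 / 4 := by
      have hf0 : (0 : ℝ) < 1 + ‖f‖ := by positivity
      calc (1 + ‖f‖) * nm (sig n) (A i)ᶜ F
          ≤ (1 + ‖f‖) * (2 * (1 / 2) ^ j) := mul_le_mul_of_nonneg_left hF3 hf0.le
        _ ≤ (1 + ‖f‖) * (2 * (1 / (8 * (1 + ‖f‖)))) := by gcongr
        _ = 1 / 4 := by field_simp; norm_num
    linarith

end Pool.Agent.H3.PK
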