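import Pool.Agent.H97.PK.Targets3

/-!
# MP_9d526a_co: module KAP (the pointwise inequality)
-/

set_option autoImplicit false

open MeasureTheory Set Metric Real
open scoped ENNReal

namespace Pool.Agent.H3.PK

open Pool.Agent.H97.PK

theorem log_three_le : Real.log 3 ≤ 1.1 := by
  rw [Real.log_le_iff_le_exp (by norm_num)]
  have h1 : (2.7182818283 : ℝ) < Real.exp 1 := Real.exp_one_gt_d9
  have h2 : (1 : ℝ) + 0.1 + 0.1 ^ 2 / 2 ≤ Real.exp 0.1 :=
    Real.quadratic_le_exp_of_nonneg (by norm_num)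
  have h3 : Real.exp 1.1 = Real.exp 1 * Real.exp 0.1 := by
    rw [← Real.exp_add]; norm_num
  rw [h3]
  nlinarith

theorem exp_neg_one_le : (Real.exp 1)⁻¹ ≤ 0.3679 := by
  have h1 : (2.7182818283 : ℝ) < Real.exp 1 := Real.exp_one_gt_d9
  rw [inv_le_comm₀ (by positivity) (by norm_num)]
  norm_num
  linarith

/-- the third term -/
theorem third (a b : ℝ) (ha : 0 < a) (hb : 0 < b) :
    -(1 / 4 * Real.log 3) ≤ (a / (a + b) - 1 / 2) * (Real.log a - Real.log b) +
      1 / 4 * Real.log (min (a / b) (b / a)) := by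
  have key : ∀ x y : ℝ, 0 < x → 0 < y → y ≤ x →
      -(1 / 4 * Real.log 3) ≤ (x / (x + y) - 1 / 2) * (Real.log x - Real.log y) +
        1 / 4 * Real.log (y / x) := by
    intro x y hx hy hxy
    have hxy0 : 0 < x + y := by linarith
    have hτ : 0 ≤ Real.log x - Real.log y := sub_nonneg.2 (Real.log_le_log hy hxy)
    rw [Real.log_div hy.ne' hx.ne']
    have h3 : 0 ≤ Real.log 3 := Real.log_nonneg (by norm_num)
    rcases le_or_gt (3 * y) x with h | h
    · have h1 : 3 / 4 ≤ x / (x + y) := by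
        rw [le_div_iff₀ hxy0]; linarith
      nlinarith
    · have h1 : 1 / 2 ≤ x / (x + y) := by
        rw [le_div_iff₀ hxy0]; linarith
      have h2 : Real.log x ≤ Real.log 3 + Real.log y := by
        rw [← Real.log_mul (by norm_num) hy.ne']
        exact Real.log_le_log hx h.le
      nlinarith [mul_nonneg (sub_nonneg.2 h1) hτ]
  rcases le_total b a with h | h
  · have h1 : min (a / b) (b / a) = b / a := by
      apply min_eq_right
      rw [div_le_div_iff₀ ha hb]
      nlinarith
    rw [h1]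
    exact key a b ha hb h
  · have h1 : min (a / b) (b / a) = a / b := by
      apply min_eq_left
      rw [div_le_div_iff₀ hb ha]
      nlinarith
    rw [h1]
    have h2 := key b a hb ha h
    have h3 : (a / (a + b) - 1 / 2) * (Real.log a - Real.log b) =
        (b / (b + a) - 1 / 2) * (Real.log b - Real.log a) := by
      have hab : a + b ≠ 0 := by positivity
      have hba : b + a ≠ 0 := by positivity
      field_simp
      ring
    rw [h3]
    exact h2

theorem pf_kap : T_KAP := by
  intro Γ Γ' a b hΓ hΓΓ' hΓ' ha ha1 hb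
  have hG : 0 < √Γ := Real.sqrt_pos.2 hΓ
  have hGsq : √Γ * √Γ = Γ := Real.mul_self_sqrt hΓ.le
  set G := √Γ with hGdef
  have hΓ'0 : 0 < Γ' := lt_of_lt_of_le hΓ hΓΓ'
  have hab : 0 < a + b := by linarith
  have h1a : 0 < 1 - a := by linarith
  have h1b : 0 < 1 + b := by linarith
  set q := √(a * b) with hq
  have hq0 : 0 < q := Real.sqrt_pos.2 (mul_pos ha hb)
  have hqsq : q * q = a * b := Real.mul_self_sqrt (mul_pos ha hb).le
  have hm : 0 < min (a / b) (b / a) := lt_min (div_pos ha hb) (div_pos hb ha)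
  have hA : 0 < a * rd Γ' (1 - a) := by unfold rd; positivity
  have hB : 0 < b * rd Γ (1 + b) := by unfold rd; positivity
  have hpos : 0 < 4 * (G + 1) * min (a / b) (b / a) ^ ((1 : ℝ) / 4) *
    ((a * rd Γ' (1 - a)) ^ (-(b / (a + b))) * (b * rd Γ (1 + b)) ^ (-(a / (a + b)))) := by
    have := Real.rpow_pos_of_pos hm ((1 : ℝ) / 4)
    have := Real.rpow_pos_of_pos hA (-(b / (a + b)))
    have := Real.rpow_pos_of_pos hB (-(a / (a + b)))
    positivity
  rw [← Real.log_nonneg_iff hpos]
  have hG1 : 0 < G + 1 := by linarith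
  rw [Real.log_mul (by positivity) (by
      have := Real.rpow_pos_of_pos hA (-(b / (a + b)))
      have := Real.rpow_pos_of_pos hB (-(a / (a + b)))
      positivity),
    Real.log_mul (by positivity) (Real.rpow_pos_of_pos hm _).ne',
    Real.log_mul (by norm_num) hG1.ne',
    Real.log_mul (Real.rpow_pos_of_pos hA _).ne' (Real.rpow_pos_of_pos hB _).ne',
    Real.log_rpow hm, Real.log_rpow hA, Real.log_rpow hB]
  have eA : Real.log (a * rd Γ' (1 - a)) = Real.log a + Real.log 2 + Real.log Γ' +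
      Real.log (1 - a) + Γ' * (2 * a - a ^ 2) := by
    unfold rd
    rw [Real.log_mul ha.ne' (by positivity), Real.log_mul (by positivity) (Real.exp_pos _).ne',
      Real.log_mul (by positivity) h1a.ne', Real.log_mul (by norm_num) hΓ'0.ne', Real.log_exp]
    ring
  have eB : Real.log (b * rd Γ (1 + b)) = Real.log b + Real.log 2 + Real.log Γ +
      Real.log (1 + b) - Γ * (2 * b + b ^ 2) := by
    unfold rd
    rw [Real.log_mul hb.ne' (by positivity), Real.log_mul (by positivity) (Real.exp_pos _).ne',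
      Real.log_mul (by positivity) h1b.ne', Real.log_mul (by norm_num) hΓ.ne', Real.log_exp]
    ring
  rw [eA, eB]
  -- weights
  set θ := a / (a + b) with hθ
  set η := b / (a + b) with hη
  have hθη : θ + η = 1 := by
    rw [hθ, hη, ← add_div, div_self hab.ne']
  have hθ0 : 0 < θ := div_pos ha hab
  have hη0 : 0 < η := div_pos hb hab
  -- the exponential part
  set h := a * b / (a + b) with hh
  have hh0 : 0 < h := by positivity
  have hηa : η * a = h := by rw [hη, hh]; ring
  have hθb : θ * b = h := by rw [hθ, hh]; ring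
  have hhab : h * (a + b) = a * b := by
    rw [hh]; field_simp
  have hhq : h ≤ q / 2 := by
    rw [hh, div_le_iff₀ hab, ← hqsq]
    have h2 : 2 * q ≤ a + b := by
      nlinarith [sq_nonneg (a - b), sq_nonneg (a + b - 2 * q), hqsq]
    nlinarith
  have hE : η * (Γ' * (2 * a - a ^ 2)) - θ * (Γ * (2 * b + b ^ 2)) ≤ q * G - (q * G) ^ 2 := by
    have e1 : η * (Γ' * (2 * a - a ^ 2)) = h * (Γ' * (2 - a)) := by
      rw [← hηa]; ring
    have e2 : θ * (Γ * (2 * b + b ^ 2)) = h * (Γ * (2 + b)) := by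
      rw [← hθb]; ring
    rw [e1, e2]
    have e3 : h * (Γ' * (2 - a)) ≤ h * ((Γ + G) * 2 - Γ * a) := by
      apply mul_le_mul_of_nonneg_left _ hh0.le
      nlinarith
    have e4 : h * ((Γ + G) * 2 - Γ * a) - h * (Γ * (2 + b)) = 2 * h * G - Γ * (h * (a + b)) := by
      ring
    have e5 : (q * G) ^ 2 = Γ * (a * b) := by
      rw [← hqsq, ← hGsq]; ring
    have e6 : 2 * h * G ≤ q * G := by nlinarith
    rw [e5]
    rw [hhab] at e4
    linarith
  -- logarithms of `Γ`, `Γ'`
  have hlogΓ : Real.log Γ = 2 * Real.log G := by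
    rw [← hGsq, Real.log_mul hG.ne' hG.ne']; ring
  have hlogΓΓ' : Real.log Γ ≤ Real.log Γ' := Real.log_le_log hΓ hΓΓ'
  have hlogΓ' : Real.log Γ' ≤ Real.log G + Real.log (G + 1) := by
    rw [← Real.log_mul hG.ne' hG1.ne']
    apply Real.log_le_log hΓ'0
    nlinarith
  have hlog1a : Real.log (1 - a) ≤ 0 := Real.log_nonpos h1a.le (by linarith)
  -- `z`
  have hlogq : Real.log a + Real.log b = 2 * Real.log q := by
    rw [← Real.log_mul ha.ne' hb.ne', ← hqsq, Real.log_mul hq0.ne' hq0.ne']; ring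
  have hz0 : 0 < q * G := mul_pos hq0 hG
  have hz : Real.log q + Real.log G ≤ q * G - 1 := by
    rw [← Real.log_mul hq0.ne' hG.ne']
    exact Real.log_le_sub_one_of_pos hz0
  -- last term
  have hlast : θ * Real.log (1 + b) ≤ 0.3679 := by
    have h1 : θ ≤ 1 / (1 + b) := by
      rw [hθ, div_le_div_iff₀ hab h1b]
      nlinarith
    have h2 : Real.log (1 + b) ≤ (1 + b) * (Real.exp 1)⁻¹ := by
      have h3 := Real.log_le_sub_one_of_pos (mul_pos h1b (inv_pos.2 (Real.exp_pos 1)))
      rw [Real.log_mul h1b.ne' (inv_pos.2 (Real.exp_pos 1)).ne', Real.log_inv, Real.log_exp] at h3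
      linarith
    have h3 : 0 ≤ Real.log (1 + b) := Real.log_nonneg (by linarith)
    calc θ * Real.log (1 + b) ≤ 1 / (1 + b) * ((1 + b) * (Real.exp 1)⁻¹) :=
          mul_le_mul h1 h2 h3 (by positivity)
      _ = (Real.exp 1)⁻¹ := by field_simp
      _ ≤ 0.3679 := exp_neg_one_le
  have hthird := third a b ha hb
  rw [← hθ] at hthird
  have hlog4 : Real.log 4 = 2 * Real.log 2 := by
    rw [show (4 : ℝ) = 2 * 2 by norm_num, Real.log_mul (by norm_num) (by norm_num)]; ring
  have hlog2 : (0.6931471803 : ℝ) < Real.log 2 := Real.log_two_gt_d9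
  have hlog3 := log_three_le
  -- combine
  have hη' : η = 1 - θ := by linarith
  have hw1 : η * Real.log Γ' + θ * Real.log Γ ≤ Real.log G + Real.log (G + 1) := by
    have h1 : θ * Real.log Γ ≤ θ * Real.log Γ' := mul_le_mul_of_nonneg_left hlogΓΓ' hθ0.le
    have h2 : η * Real.log Γ' + θ * Real.log Γ' = Real.log Γ' := by
      rw [← add_mul, add_comm η θ, hθη, one_mul]
    linarith
  have hw2 : η * Real.log (1 - a) ≤ 0 := mul_nonpos_of_nonneg_of_nonpos hη0.le hlog1a
  have hw3 : η * Real.log a + θ * Real.log b =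
      Real.log q - (θ - 1 / 2) * (Real.log a - Real.log b) := by
    have : Real.log q = (Real.log a + Real.log b) / 2 := by linarith
    rw [this, hη']
    ring
  have hsq : 0 ≤ (q * G - 1) ^ 2 := sq_nonneg _
  have hfinal : 0 ≤ Real.log 4 + Real.log (G + 1) + 1 / 4 * Real.log (min (a / b) (b / a)) -
      (η * Real.log a + θ * Real.log b) - (η + θ) * Real.log 2 -
      (η * Real.log Γ' + θ * Real.log Γ) - η * Real.log (1 - a) - θ * Real.log (1 + b) -
      (η * (Γ' * (2 * a - a ^ 2)) - θ * (Γ * (2 * b + b ^ 2))) := by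
    rw [hw3, hlog4, add_comm η θ, hθη]
    nlinarith
  calc (0 : ℝ) ≤ _ := hfinal
    _ = _ := by ring

end Pool.Agent.H3.PK
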