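import Pool.Agent.H97.PK.Targets3

/-!
# MP_9d526a_co: module MUM (the total mass of the weight)
-/

set_option autoImplicit false

open MeasureTheory Set Metric Real
open scoped ENNReal

namespace Pool.Agent.H3.PK

open Pool.Agent.H97.PK

theorem mw_left {t : ℝ} (h0 : 0 < t) (h1 : t ≤ 1) : mw t = t ^ (-(3 : ℝ) / 4) := by
  have h2 : t ≤ 1 / t := by
    rw [le_div_iff₀ h0]
    nlinarith
  unfold mw
  rw [min_eq_left h2]
  rw [← Real.rpow_sub_one h0.ne']
  norm_num

theorem mw_right {t : ℝ} (h1 : 1 < t) : mw t = t ^ (-(5 : ℝ) / 4) := by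
  have h0 : 0 < t := by linarith
  have h2 : 1 / t ≤ t := by
    rw [div_le_iff₀ h0]
    nlinarith
  unfold mw
  rw [min_eq_right h2, one_div, Real.inv_rpow h0.le, ← Real.rpow_neg h0.le,
    ← Real.rpow_sub_one h0.ne']
  norm_num

theorem pf_mum : T_MUM := by
  unfold T_MUM
  have hunion : Ioi (0 : ℝ) ⊆ Ioc 0 1 ∪ Ioi 1 := by
    intro t ht
    rcases le_or_gt t 1 with h | h
    · exact Or.inl ⟨ht, h⟩
    · exact Or.inr h
  have hL : ∫⁻ t in Ioc (0 : ℝ) 1, ENNReal.ofReal (mw t) = ENNReal.ofReal 4 := by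
    have e1 : ∫⁻ t in Ioc (0 : ℝ) 1, ENNReal.ofReal (mw t) =
        ∫⁻ t in Ioc (0 : ℝ) 1, ENNReal.ofReal (t ^ (-(3 : ℝ) / 4)) := by
      apply setLIntegral_congr_fun measurableSet_Ioc
      intro t ht
      change ENNReal.ofReal (mw t) = ENNReal.ofReal (t ^ (-(3 : ℝ) / 4))
      rw [mw_left ht.1 ht.2]
    have hint : IntegrableOn (fun t : ℝ => t ^ (-(3 : ℝ) / 4)) (Ioc 0 1) volume := by
      have := intervalIntegral.intervalIntegrable_rpow' (a := 0) (b := 1)
        (by norm_num : (-1 : ℝ) < -(3 : ℝ) / 4)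
      rwa [intervalIntegrable_iff_integrableOn_Ioc_of_le zero_le_one] at this
    rw [e1, ← ofReal_integral_eq_lintegral_ofReal hint]
    · congr 1
      rw [← intervalIntegral.integral_of_le zero_le_one,
        integral_rpow (Or.inl (by norm_num : (-1 : ℝ) < -(3 : ℝ) / 4))]
      rw [Real.one_rpow, Real.zero_rpow (by norm_num)]
      norm_num
    · filter_upwards [self_mem_ae_restrict measurableSet_Ioc] with t ht
      exact Real.rpow_nonneg ht.1.le _
  have hR : ∫⁻ t in Ioi (1 : ℝ), ENNReal.ofReal (mw t) = ENNReal.ofReal 4 := by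
    have e1 : ∫⁻ t in Ioi (1 : ℝ), ENNReal.ofReal (mw t) =
        ∫⁻ t in Ioi (1 : ℝ), ENNReal.ofReal (t ^ (-(5 : ℝ) / 4)) := by
      apply setLIntegral_congr_fun measurableSet_Ioi
      intro t ht
      change ENNReal.ofReal (mw t) = ENNReal.ofReal (t ^ (-(5 : ℝ) / 4))
      rw [mw_right ht]
    have hint : IntegrableOn (fun t : ℝ => t ^ (-(5 : ℝ) / 4)) (Ioi 1) volume :=
      integrableOn_Ioi_rpow_of_lt (by norm_num) one_pos
    rw [e1, ← ofReal_integral_eq_lintegral_ofReal hint]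
    · congr 1
      rw [integral_Ioi_rpow_of_lt (by norm_num) one_pos, Real.one_rpow]
      norm_num
    · filter_upwards [self_mem_ae_restrict measurableSet_Ioi] with t ht
      have ht' : (1 : ℝ) < t := ht
      exact Real.rpow_nonneg (by linarith) _
  calc ∫⁻ t in Ioi (0 : ℝ), ENNReal.ofReal (mw t)
      ≤ ∫⁻ t in Ioc (0 : ℝ) 1 ∪ Ioi 1, ENNReal.ofReal (mw t) := lintegral_mono_set hunion
    _ ≤ (∫⁻ t in Ioc (0 : ℝ) 1, ENNReal.ofReal (mw t)) +
        ∫⁻ t in Ioi (1 : ℝ), ENNReal.ofReal (mw t) := lintegral_union_le _ _ _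
    _ = ENNReal.ofReal 4 + ENNReal.ofReal 4 := by rw [hL, hR]
    _ ≤ 8 := by
        rw [← ENNReal.ofReal_add (by norm_num) (by norm_num)]
        norm_num

end Pool.Agent.H3.PK
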