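import Pool.Agent.H3.PK.Basic

/-!
# MP_7886dd_an: the targets
-/

set_option autoImplicit false

open MeasureTheory Metric Set
open scoped ComplexConjugate

namespace Pool.Agent.H3.PK

/-- SIG: the normalised surface measure is a probability measure invariant under the unitary group -/
def T_SIG : Prop := ∀ n : ℕ, 1 ≤ n → Inv (sig n)

/-- NUL -/
def T_NUL : Prop := ∀ (n : ℕ) (i₀ : Fin n), sig n {z | ((z : E n) i₀).im = 0} = 0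

/-- HK1 -/
def T_HK1 : Prop := ∀ (n N : ℕ) (p : MvPolynomial (Fin n) ℂ), 1 ≤ N → Ball1 N p →
  ∀ (z : S n) (j : Fin n),
    ‖ev (MvPolynomial.pderiv j p) z / N - conj ((z : E n) j) * ev p z‖ ≤ 2 / √(N : ℝ)

/-- HK2 -/
def T_HK2 : Prop := ∀ (n : ℕ) (F : MvPolynomial (Fin n) ℂ) (ε : ℝ), 0 < ε →
  ∃ N₀ : ℕ, ∀ N : ℕ, N₀ ≤ N → ∀ p : MvPolynomial (Fin n) ℂ, Ball1 N p → ∃ f : MvPolynomial (Fin n) ℂ,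
    MvPolynomial.constantCoeff f = 0 ∧
    ∀ z : S n, ‖ev f z - ((ev F z).re : ℂ) * ev p z‖ ≤ ε

/-- GSM -/
def T_GSM : Prop := ∃ B : ℝ, 1 ≤ B ∧ ∀ (N : ℕ) (y : ℝ), 0 ≤ y →
  ∑ k ∈ Finset.range N, Real.exp (-(((k : ℝ) - y) ^ 2 / 2)) ≤ B

/-- WU -/
def T_WU : Prop := ∀ (n N : ℕ) (α : Fin n → ℕ), ∑ i, α i = N → ∀ z : S n,
  wt N α z ≤ Real.exp (-(∑ i, (√(α i : ℝ) - √((N : ℝ) * ‖(z : E n) i‖ ^ 2)) ^ 2) / 2)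

/-- WUS -/
def T_WUS : Prop := ∀ n : ℕ, ∃ B : ℝ, 0 < B ∧ ∀ (N : ℕ) (z : S n),
  ∑ x ∈ LL n N, wt N (al N x) z ≤ B

/-- WL -/
def T_WL : Prop := ∀ n : ℕ, 1 ≤ n → ∃ c : ℝ, 0 < c ∧ ∀ N : ℕ, 1 ≤ N → ∀ z : S n,
  ∃ x ∈ LL n N, c ≤ wt N (al N x) z

/-- BB -/
def T_BB : Prop := ∀ (n N : ℕ) (α : Fin n → ℕ), ∑ i, α i = N →
  (bb N α).IsHomogeneous N ∧ ∀ z : E n, ‖ev (bb N α) z‖ = wt N α z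

/-- SGN -/
def T_SGN : Prop := ∀ (n : ℕ) (σ : Measure (S n)), IsFiniteMeasure σ → ∀ g : C(S n, ℝ),
  (∀ z, 0 ≤ g z) → ∀ (ι : Type) (s : Finset ι) (v : ι → MvPolynomial (Fin n) ℂ),
  ∃ e : ι → ℂ, (∀ i, e i = 1 ∨ e i = -1) ∧
    ∑ i ∈ s, ∫ z, g z * ‖ev (v i) z‖ ^ 2 ∂σ ≤
      ∫ z, g z * ‖ev (∑ i ∈ s, MvPolynomial.C (e i) * v i) z‖ ^ 2 ∂σ

/-- RW -/
def T_RW : Prop := ∀ n : ℕ, 1 ≤ n → ∃ c : ℝ, 0 < c ∧ c ≤ 1 ∧ ∀ σ : Measure (S n),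
  IsFiniteMeasure σ → ∀ g : C(S n, ℝ), (∀ z, 0 ≤ g z) → ∀ N : ℕ, 1 ≤ N →
  ∃ p : MvPolynomial (Fin n) ℂ, Ball1 N p ∧ c * ∫ z, g z ∂σ ≤ ∫ z, g z * ‖ev p z‖ ^ 2 ∂σ

/-- WS -/
def T_WS : Prop := ∀ (n : ℕ) (σ : Measure (S n)), Inv σ → ∀ g : S n → ℝ, Integrable g σ →
  ∀ ε : ℝ, 0 < ε → ∃ N₀ : ℕ, ∀ N : ℕ, N₀ ≤ N → ∀ p : MvPolynomial (Fin n) ℂ, Ball1 N p →
  ‖∫ z, (g z : ℂ) * ev p z ∂σ‖ ≤ ε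

/-- MV -/
def T_MV : Prop := ∀ (n : ℕ) (σ : Measure (S n)), Inv σ → ∀ F : MvPolynomial (Fin n) ℂ,
  ∫ z, ev F z ∂σ = MvPolynomial.constantCoeff F

/-- ST -/
def T_ST : Prop := ∀ n : ℕ, 1 ≤ n → ∃ κ : ℝ, 0 < κ ∧ κ ≤ 1 ∧ ∀ σ : Measure (S n), Inv σ →
  ∀ (m : ℕ) (F : Fin m → MvPolynomial (Fin n) ℂ) (A : Set (S n)), MeasurableSet A →
  ∀ ε : ℝ, 0 < ε → ∃ G : Fin m → MvPolynomial (Fin n) ℂ,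
    (∀ j, MvPolynomial.constantCoeff (G j) = MvPolynomial.constantCoeff (F j)) ∧
    (∀ j, nm σ univ (G j) ≤ nm σ univ (F j) + ε) ∧
    (∀ j, nm σ A (G j) ≤ nm σ A (F j) + ε) ∧
    ∑ j, hf σ (G j) ≤ (1 - κ) * ∑ j, hf σ (F j) + ε

/-- IT -/
def T_IT : Prop := ∀ n : ℕ, 1 ≤ n → ∀ σ : Measure (S n), Inv σ →
  ∀ (m : ℕ) (F : Fin m → MvPolynomial (Fin n) ℂ) (A : Set (S n)), MeasurableSet A →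
  ∀ ε : ℝ, 0 < ε → ∃ G : Fin m → MvPolynomial (Fin n) ℂ,
    (∀ j, MvPolynomial.constantCoeff (G j) = MvPolynomial.constantCoeff (F j)) ∧
    (∀ j, nm σ univ (G j) ≤ nm σ univ (F j) + ε) ∧
    (∀ j, nm σ A (G j) ≤ nm σ A (F j) + ε) ∧
    σ.real {z | ∃ j, 1 ≤ |(ev (G j) z).re|} ≤ ε ∧
    ∀ j, nm σ {z | ∃ j, 1 ≤ |(ev (G j) z).re|}ᶜ (G j) ≤ ε

/-- RU -/
def T_RU : Prop := ∀ δ ε : ℝ, 0 < δ → 0 < ε → ∃ f : Polynomial ℂ, f.eval 0 = 1 ∧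
  ∀ w : ℂ, ‖w‖ ≤ 1 → (∀ t : ℝ, 0 ≤ t → t ≤ 1 → δ ≤ ‖w - t‖) → ‖f.eval w‖ ≤ ε

/-- CHN -/
def T_CHN : Prop := ∀ (n : ℕ) (σ : Measure (S n)), IsFiniteMeasure σ → ∀ i₀ : Fin n,
  σ {z | ((z : E n) i₀).im = 0} = 0 → (∀ δ : ℝ, IsClosed (chan (n := n) i₀ δ)) ∧
  ∀ ε : ℝ, 0 < ε → ∃ δ₀ : ℝ, 0 < δ₀ ∧ ∀ δ : ℝ, δ ≤ δ₀ → σ.real (chan i₀ δ) ≤ ε

/-- CON -/
def T_CON : Prop := ∀ (n : ℕ) (σ : Measure (S n)), Inv σ → ∀ i₀ : Fin n,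
  σ {z | ((z : E n) i₀).im = 0} = 0 → ∃ (A : ℕ → Set (S n)) (M : ℕ → ℝ),
    (∀ i, IsClosed (A i)) ∧ Antitone A ∧ (∀ i, σ.real (A i) ≤ (1 / 2) ^ i) ∧
    ∀ i j, j ≤ i → ∃ F : MvPolynomial (Fin n) ℂ, MvPolynomial.constantCoeff F = 1 ∧
      nm σ univ F ≤ M j ∧ nm σ (A i)ᶜ F ≤ 2 * (1 / 2) ^ j

/-- MOM -/
def T_MOM : Prop := ∀ (n : ℕ) (σ : Measure (S n)), Inv σ → ∃ c : ℕ → ℂ, ∀ α β : Fin n → ℕ,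
  ∫ z : S n, (∏ i, ((z : E n) i) ^ α i) * ∏ i, conj ((z : E n) i) ^ β i ∂σ =
    if α = β then c (∑ i, α i) * ∏ i, ((α i).factorial : ℂ) else 0

/-- ORT -/
def T_ORT : Prop := ∀ (n : ℕ) (σ : Measure (S n)), Inv σ → ∀ a b : ℕ, 1 ≤ a → 1 ≤ b →
  ∀ P : MvPolynomial (Fin n ⊕ Fin n) ℂ, BiHom P a b → Harm P →
  ∀ F : MvPolynomial (Fin n) ℂ, ∫ z : S n, ev2 P z * ev F z ∂σ = 0

/-- ORC -/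
def T_ORC : Prop := ∀ (n : ℕ) (σ : Measure (S n)), Inv σ → ∀ a b : ℕ, 1 ≤ a → 1 ≤ b →
  ∀ P : MvPolynomial (Fin n ⊕ Fin n) ℂ, BiHom P a b → Harm P →
  ∀ F : MvPolynomial (Fin n) ℂ, ∫ z : S n, ev2 P z * conj (ev F z) ∂σ = 0

/-- XRT -/
def T_XRT : Prop := ∀ (n : ℕ) (σ : Measure (S n)), Inv σ → ∀ f ∈ XX n,
  ∀ F : MvPolynomial (Fin n) ℂ, ∫ z : S n, f z * ((ev F z).re : ℂ) ∂σ = 0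

/-- FIN -/
def T_FIN : Prop := ∀ n : ℕ, 1 ≤ n → ∃ K : Set (S n), IsCompact K ∧ sig n K = 0 ∧
  ∀ f ∈ XX n, ¬ ∀ z ∈ K, f z = 1

end Pool.Agent.H3.PK
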