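import Pool.Agent.H3.PK.Targets

/-!
# MP_7886dd_an: orthogonality on the closed span
-/

set_option autoImplicit false

open MeasureTheory Metric Set
open scoped ComplexConjugate

namespace Pool.Agent.H3.PK

lemma int_mul {n : ℕ} (σ : Measure (S n)) [IsFiniteMeasure σ] {g : S n → ℂ} (hg : Continuous g)
    (f : C(S n, ℂ)) : Integrable (fun z => f z * g z) σ :=
  integrable_cont σ (f.continuous.mul hg)

lemma lip_int {n : ℕ} (σ : Measure (S n)) [IsFiniteMeasure σ] {g : S n → ℂ} (hg : Continuous g) :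
    Continuous fun f : C(S n, ℂ) => ∫ z, f z * g z ∂σ := by
  have hK : 0 ≤ ∫ z, ‖g z‖ ∂σ := integral_nonneg fun z => norm_nonneg _
  refine (LipschitzWith.of_dist_le_mul (K := (∫ z, ‖g z‖ ∂σ).toNNReal) fun f f' => ?_).continuous
  rw [dist_eq_norm, dist_eq_norm, Real.coe_toNNReal _ hK,
    ← integral_sub (int_mul σ hg f) (int_mul σ hg f')]
  refine (norm_integral_le_integral_norm _).trans ?_
  rw [← integral_mul_const]
  refine integral_mono ((int_mul σ hg f).sub (int_mul σ hg f')).norm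
    ((integrable_cont σ hg.norm).mul_const _) fun z => ?_
  simp only
  rw [← sub_mul, norm_mul, mul_comm]
  exact mul_le_mul_of_nonneg_left ((f - f').norm_coe_le_norm z) (norm_nonneg _)

theorem xrt (h1 : T_ORT) (h2 : T_ORC) : T_XRT := by
  intro n σ hσ f hf F
  have := hσ.prob
  have hg : Continuous fun z : S n => (((ev F z).re : ℝ) : ℂ) :=
    Complex.continuous_ofReal.comp (Complex.continuous_re.comp (continuous_evS F))
  have hcl : IsClosed {f : C(S n, ℂ) | ∫ z : S n, f z * (((ev F z).re : ℝ) : ℂ) ∂σ = 0} :=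
    isClosed_eq (lip_int σ hg) continuous_const
  have hgen : ∀ f ∈ {f : C(S n, ℂ) | ∃ a b : ℕ, 1 ≤ a ∧ 1 ≤ b ∧ f ∈ HH n a b},
      ∫ z : S n, f z * (((ev F z).re : ℝ) : ℂ) ∂σ = 0 := by
    rintro f ⟨a, b, ha, hb, P, hP1, hP2, hP3⟩
    have e1 : ∀ z : S n, f z * (((ev F z).re : ℝ) : ℂ) =
        (1 / 2 : ℂ) * (ev2 P z * ev F z + ev2 P z * conj (ev F z)) := by
      intro z
      rw [hP3 z, Complex.re_eq_add_conj]
      ring
    have i1 : Integrable (fun z : S n => ev2 P z * ev F z) σ :=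
      integrable_cont σ ((continuous_ev2S P).mul (continuous_evS F))
    have i2 : Integrable (fun z : S n => ev2 P z * conj (ev F z)) σ :=
      integrable_cont σ ((continuous_ev2S P).mul
        (Complex.continuous_conj.comp (continuous_evS F)))
    simp_rw [e1]
    rw [integral_const_mul, integral_add i1 i2, h1 n σ hσ a b ha hb P hP1 hP2 F,
      h2 n σ hσ a b ha hb P hP1 hP2 F, add_zero, mul_zero]
  refine closure_minimal ?_ hcl hf
  intro f hf
  show ∫ z : S n, f z * (((ev F z).re : ℝ) : ℂ) ∂σ = 0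
  refine Submodule.span_induction (p := fun f _ =>
    ∫ z : S n, f z * (((ev F z).re : ℝ) : ℂ) ∂σ = 0) hgen ?_ ?_ ?_ hf
  · simp
  · intro u v _ _ hu hv
    have e2 : ∀ z : S n, (u + v) z * (((ev F z).re : ℝ) : ℂ) =
        u z * (((ev F z).re : ℝ) : ℂ) + v z * (((ev F z).re : ℝ) : ℂ) := by
      intro z
      rw [ContinuousMap.add_apply]
      ring
    simp_rw [e2]
    rw [integral_add (int_mul σ hg u) (int_mul σ hg v), hu, hv, add_zero]
  · intro c u _ hu
    have e2 : ∀ z : S n, (c • u) z * (((ev F z).re : ℝ) : ℂ) =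
        c * (u z * (((ev F z).re : ℝ) : ℂ)) := by
      intro z
      rw [ContinuousMap.smul_apply, smul_eq_mul]
      ring
    simp_rw [e2]
    rw [integral_const_mul, hu, mul_zero]

end Pool.Agent.H3.PK
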